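import Mathlib
import Pool.Agent.Run7.h548.AC.A13

/-!
# The finite `p`-groups `G` with `|Aut_c(G)| = |γ₂(G)|^{d(G)}`

Complete classification, for every prime `p`. A finite `p`-group `G` attains the upper bound
`|Aut_c(G)| ≤ |γ₂(G)|^{d(G)}` if and only if

* `γ₂(G) ≤ Z(G)` and every `x` outside the Frattini subgroup has `x^G = x γ₂(G)`
  (equivalently: `γ₂(G) ≤ Z(G)` and `Z(G/N) = Φ(G/N)` for every maximal subgroup `N` of `γ₂(G)`); or
* `G` is generated by two elements, `γ₂(G)` is cyclic and, if `p = 2`, `[γ₂(G), G] ≤ γ₂(G)^4`; or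
* `p = 2`, `G` is generated by two elements, `γ₄(G) = 1` and `γ₂(G)` is elementary abelian.
-/

set_option autoImplicit false

open scoped commutatorElement

namespace Pool.Agent.Results.MP_932391_al.Classification

open Pool.Agent.Run7.h548.AC Pool.Agent.Helper832.AutC

/-- nilpotency class at most two, and every element outside the Frattini subgroup is conjugate to
all elements of its coset modulo the derived subgroup -/
def TypeA (G : Type) [Group G] : Prop :=
  commutator G ≤ Subgroup.center G ∧
    ∀ x : G, x ∉ frattini G → ∀ c ∈ commutator G, IsConj x (x * c)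

/-- nilpotency class at most two, and for every maximal subgroup `N` of the derived subgroup the
centre of `G/N` is the Frattini subgroup of `G/N` -/
def LocalA (G : Type) [Group G] : Prop :=
  commutator G ≤ Subgroup.center G ∧
    ∀ (N : Subgroup G) [N.Normal], N ⋖ commutator G →
      Subgroup.center (G ⧸ N) = frattini (G ⧸ N)

/-- two generators, cyclic derived subgroup and, for `p = 2`, trivial action on `γ₂/γ₂⁴` -/
def TypeB (p : ℕ) (G : Type) [Group G] : Prop :=
  (∃ x y : G, Subgroup.closure {x, y} = ⊤) ∧ IsCyclic (commutator G) ∧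
    (p = 2 → ∀ c ∈ commutator G, ∀ g : G, ∃ d ∈ commutator G, ⁅c, g⁆ = d ^ 4)

/-- `p = 2`, two generators, class at most three, derived subgroup elementary abelian -/
def TypeC (p : ℕ) (G : Type) [Group G] : Prop :=
  p = 2 ∧ (∃ x y : G, Subgroup.closure {x, y} = ⊤) ∧
    ⁅⁅commutator G, (⊤ : Subgroup G)⁆, (⊤ : Subgroup G)⁆ = ⊥ ∧ ∀ c ∈ commutator G, c ^ 2 = 1

/-- **Classification of the finite `p`-groups with `|Aut_c(G)| = |γ₂(G)|^{d(G)}`.** -/
theorem result (p : ℕ) [Fact p.Prime] (G : Type) [Group G] [Finite G] (hG : IsPGroup p G) :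
    List.TFAE [
      Nat.card {α : MulAut G // ∀ x : G, IsConj x (α x)}
        = Nat.card (commutator G) ^ Group.rank G,
      TypeA G ∨ TypeB p G ∨ TypeC p G,
      LocalA G ∨ TypeB p G ∨ TypeC p G] := by
  have h1 : Nat.card {α : MulAut G // ∀ x : G, IsConj x (α x)} = Nat.card (AutC G) := rfl
  rw [h1]
  have h2 : TypeA G ↔ LocalA G := by
    constructor
    · rintro ⟨hc, h⟩
      exact ⟨hc, (local_iff' hG hc).mp h⟩
    · rintro ⟨hc, h⟩
      exact ⟨hc, (local_iff' hG hc).mpr h⟩
  tfae_have 1 ↔ 2 := classification hG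
  tfae_have 2 ↔ 3 := by rw [h2]
  tfae_finish

end Pool.Agent.Results.MP_932391_al.Classification
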